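import Pool.Agent.Helper95.HV.Stmts
import Pool.Agent.Helper76.LN.FF
import Pool.Agent.Helper85.LN.MVP

/-! Row FGZ of sheet HV (MP_56acfd_mp): derivative of the field of the far charges. -/

set_option autoImplicit false

namespace Pool.Agent.Helper99.HV

open MeasureTheory Filter Topology Pool.Agent.Helper95.PW Pool.Agent.Helper95.LN
  Pool.Agent.Helper95.HV

namespace FGZ99

open Pool.Agent.Helper76.LN.FF76

theorem nr_sq (y : R3) : nr y ^ 2 = y 0 ^ 2 + y 1 ^ 2 + y 2 ^ 2 := by
  unfold nr
  rw [Real.sq_sqrt (by positivity)]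

theorem nr_line (y : R3) (i : Fin 3) (t : ℝ) :
    nr (y + t • (Pi.single i 1 : R3)) = Real.sqrt (nr y ^ 2 + 2 * t * y i + t ^ 2) := by
  rw [nr_sq]
  unfold nr
  congr 1
  fin_cases i <;> simp <;> ring

theorem nr_line_hd (y : R3) (hy : 0 < nr y) (i : Fin 3) :
    HasDerivAt (fun t : ℝ => nr (y + t • (Pi.single i 1 : R3))) (y i / nr y) 0 := by
  have h0 : HasDerivAt (fun t : ℝ => nr y ^ 2 + 2 * t * y i + t ^ 2) (2 * y i) 0 := by
    have h1 : HasDerivAt (fun t : ℝ => 2 * t * y i) (2 * 1 * y i) 0 :=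
      ((hasDerivAt_id (0:ℝ)).const_mul 2).mul_const (y i)
    have h2 : HasDerivAt (fun t : ℝ => t ^ 2) (2 * (0:ℝ) ^ (2 - 1)) 0 := by
      simpa using hasDerivAt_pow 2 (0 : ℝ)
    have h3 := (h1.const_add (nr y ^ 2)).add h2
    have e : 2 * 1 * y i + 2 * (0:ℝ) ^ (2 - 1) = 2 * y i := by norm_num
    rw [← e]
    exact h3
  have h1 := h0.sqrt (by simp; exact hy.ne')
  simp only [nr_line]
  convert h1 using 1
  have : Real.sqrt (nr y ^ 2 + 2 * 0 * y i + 0 ^ 2) = nr y := by
    rw [show nr y ^ 2 + 2 * 0 * y i + 0 ^ 2 = nr y ^ 2 by ring, Real.sqrt_sq hy.le]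
  rw [this]
  field_simp

theorem pd_of {f : R3 → ℝ} {y : R3} (hf : DifferentiableAt ℝ f y) {i : Fin 3} {v : ℝ}
    (h : HasDerivAt (fun t : ℝ => f (y + t • (Pi.single i 1 : R3))) v 0) : pd i f y = v := by
  unfold pd
  rw [← hf.lineDeriv_eq_fderiv]
  exact h.deriv

theorem line_gt {b : ℝ} {y : R3} (hy : b < nr y) (i : Fin 3) :
    ∀ᶠ t : ℝ in 𝓝 0, b < nr (y + t • (Pi.single i 1 : R3)) := by
  have hc : Continuous (fun t : ℝ => nr (y + t • (Pi.single i 1 : R3))) :=
    nr_cont.comp (by fun_prop)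
  have := hc.continuousAt (x := (0:ℝ))
  apply this.eventually_const_lt
  simpa using hy

/-- second derivatives of the smeared potential outside the ball -/
theorem pd2 (hPHA : ST_PHA) (hPHB : ST_PHB) (b : ℝ) (hb : 0 < b) (m p : Fin 3) (y : R3)
    (hy : b < nr y) : pd m (pd p (ph b)) y =
      3 * y m * y p / nr y ^ 5 - (if m = p then 1 else 0) / nr y ^ 3 := by
  have hy0 : 0 < nr y := hb.trans hy
  have hs := (hPHA b hb).1
  apply pd_of ((pd_smooth p _ hs).differentiable (by simp) y)
  have hY : HasDerivAt (fun t : ℝ => (y + t • (Pi.single m 1 : R3)) p)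
      (if m = p then 1 else 0) 0 := by
    by_cases hmp : m = p
    · subst hmp
      rw [if_pos rfl]
      have h1 : (fun t : ℝ => (y + t • (Pi.single m 1 : R3)) m) = fun t => y m + t := by
        funext t
        simp
      rw [h1]
      exact (hasDerivAt_id (0:ℝ)).const_add (y m)
    · rw [if_neg hmp]
      have h1 : (fun t : ℝ => (y + t • (Pi.single m 1 : R3)) p) = fun _ => y p := by
        funext t
        have : (Pi.single m (1:ℝ) : R3) p = 0 := Pi.single_eq_of_ne (Ne.symm hmp) 1
        simp [this]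
      rw [h1]
      exact hasDerivAt_const _ _
  have hN := (nr_line_hd y hy0 m).pow 3
  have hq := (hY.div hN (by simpa using hy0.ne')).neg
  have h2 : (fun t : ℝ => pd p (ph b) (y + t • (Pi.single m 1 : R3))) =ᶠ[𝓝 0]
      fun t : ℝ => -((y + t • (Pi.single m 1 : R3)) p /
        nr (y + t • (Pi.single m 1 : R3)) ^ 3) := by
    filter_upwards [line_gt hy m] with t ht
    exact (hPHB b hb).2.2.2 p _ ht.le
  refine (HasDerivAt.congr_of_eventuallyEq hq h2).congr_deriv ?_
  simp only [zero_smul, add_zero, Pi.pow_apply]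
  push_cast
  field_simp
  ring

theorem Tq_eq (ξ v w : R3) : Tq ξ v w = ∑ m, ∑ p, v m * w p *
    (3 * ξ m * ξ p / nr ξ ^ 5 - (if m = p then 1 else 0) / nr ξ ^ 3) := by
  unfold Tq
  simp only [Fin.sum_univ_three]
  simp
  ring

/-- the second derivatives of the far field -/
theorem hh_pd (hPHA : ST_PHA) (hPHB : ST_PHB) {n M : ℕ} (d : ℝ) (hd : 0 < d) (X : Fin M → R3)
    (Z : Fin M → ℝ) (x : Cf n) (hX : Sep X d) (i : Fin M) (v w y : R3)
    (hy : nr (y - X i) ≤ d / 2) :
    (∑ l, if nr (x l - X i) < 3 / 2 * d then 0 else Tq (y - x l) v w) -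
      ∑ j, (if j = i then 0 else Z j * Tq (y - X j) v w) =
    -∑ m, ∑ p, v m * w p * pd m (hh d X Z x i p) y := by
  have hs := (hPHA (d / 8) (by positivity)).1
  have e : ∀ m p, pd m (hh d X Z x i p) y = comb (pd m (pd p (ph (d / 8)))) (cf d X Z x i)
      (Sum.elim x X) y := by
    intro m p
    have h0 : hh d X Z x i p = comb (pd p (ph (d / 8))) (cf d X Z x i) (Sum.elim x X) := rfl
    rw [h0, comb_pd _ _ _ (pd_smooth p _ hs)]
  have hT : ∀ ξ : R3, d / 8 < nr ξ →
      ∑ m, ∑ p, v m * w p * pd m (pd p (ph (d / 8))) ξ = Tq ξ v w := by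
    intro ξ hξ
    rw [Tq_eq]
    refine Finset.sum_congr rfl fun m _ => Finset.sum_congr rfl fun p _ => ?_
    rw [pd2 hPHA hPHB (d / 8) (by positivity) m p ξ hξ]
  have hsum : ∑ m, ∑ p, v m * w p * pd m (hh d X Z x i p) y =
      ∑ k, cf d X Z x i k *
        ∑ m, ∑ p, v m * w p * pd m (pd p (ph (d / 8))) (y - (Sum.elim x X : _ → R3) k) := by
    calc _ = ∑ m, ∑ p, ∑ k, cf d X Z x i k *
          (v m * w p * pd m (pd p (ph (d / 8))) (y - (Sum.elim x X : _ → R3) k)) := by
          refine Finset.sum_congr rfl fun m _ => Finset.sum_congr rfl fun p _ => ?_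
          rw [e]
          unfold comb
          rw [Finset.mul_sum]
          refine Finset.sum_congr rfl fun k _ => ?_
          ring
      _ = ∑ m, ∑ k, ∑ p, cf d X Z x i k *
          (v m * w p * pd m (pd p (ph (d / 8))) (y - (Sum.elim x X : _ → R3) k)) :=
          Finset.sum_congr rfl fun m _ => Finset.sum_comm
      _ = ∑ k, ∑ m, ∑ p, cf d X Z x i k *
          (v m * w p * pd m (pd p (ph (d / 8))) (y - (Sum.elim x X : _ → R3) k)) :=
          Finset.sum_comm
      _ = _ := by
          refine Finset.sum_congr rfl fun k _ => ?_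
          simp only [Finset.mul_sum]
  rw [hsum, Fintype.sum_sum_type]
  unfold cf
  simp only [Sum.elim_inl, Sum.elim_inr]
  rw [neg_add, sub_eq_add_neg]
  congr 1
  · rw [← Finset.sum_neg_distrib]
    apply Finset.sum_congr rfl
    intro l _
    split_ifs with h
    · simp
    · have h1 := nr_tri (x l) y (X i)
      have h2 : d / 8 < nr (y - x l) := by
        rw [nr_comm y (x l)]
        linarith
      rw [hT _ h2]
      ring
  · congr 1
    apply Finset.sum_congr rfl
    intro j _
    split_ifs with h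
    · simp
    · have h1 := nr_tri (X j) y (X i)
      have h3 := hX j i h
      have h2 : d / 8 < nr (y - X j) := by
        rw [nr_comm y (X j)]
        linarith
      rw [hT _ h2]

end FGZ99

open FGZ99 Pool.Agent.Helper76.LN.FF76 Pool.Agent.Helper85.LN in
/-- row FGZ -/
theorem FGZ (hMVP : ST_MVP) (hPHA : ST_PHA) (hPHB : ST_PHB) (hPHC : ST_PHC) : ST_FGZ := by
  intro d hd _
  have hk := hPHC.2.1
  have ha : 0 < d / 2 := by positivity
  have hE := hPHC.2.2.2 (d / 2) ha
  set I : Fin 3 → ℝ := fun m => ∫ w, |pd m (et (d / 2)) w| with hI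
  have hI0 : ∀ m, 0 ≤ I m := fun m => integral_nonneg fun w => abs_nonneg _
  have hIs : ∀ m, I m ≤ ∑ m, I m := fun m =>
    Finset.single_le_sum (f := I) (fun m _ => hI0 m) (Finset.mem_univ m)
  have hS0 : 0 ≤ ∑ m, I m := Finset.sum_nonneg fun m _ => hI0 m
  refine ⟨9 * ((∑ m, I m) / kap) + 1, by positivity, ?_⟩
  intro n M X Z x i e K v w y hX he hv hw hy
  have hK0 : 0 ≤ K := (abs_nonneg _).trans (hv 0)
  have he0 : 0 ≤ e := (abs_nonneg _).trans (he 0 y (by linarith))
  rw [hh_pd hPHA hPHB d hd X Z x hX i v w y hy, abs_neg]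
  have hb : ∀ m p, |pd m (hh d X Z x i p) y| ≤ e * ((∑ m, I m) / kap) := by
    intro m p
    have hsm : ContDiff ℝ (⊤ : ℕ∞) (hh d X Z x i p) :=
      comb_smooth _ _ _ (pd_smooth p _ (hPHA (d / 8) (by positivity)).1)
    have hM := (hMVP (pd m (hh d X Z x i p)) y (d / 2) (pd_smooth m _ hsm) ha).1 (by
      intro w hw
      rw [lap_pd _ hsm m w]
      have hev : lap (hh d X Z x i p) =ᶠ[𝓝 w] fun _ => (0:ℝ) := by
        have ho : IsOpen {w : R3 | nr (w - X i) < 5 / 4 * d} :=
          isOpen_lt (nr_cont.comp (continuous_id.sub continuous_const)) continuous_const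
        have hmem : w ∈ {w : R3 | nr (w - X i) < 5 / 4 * d} := by
          have := nr_tri w y (X i)
          show nr (w - X i) < 5 / 4 * d
          linarith
        filter_upwards [ho.mem_nhds hmem] with z hz
        exact hh_harm hPHA hPHB hPHC d hd X Z x hX i p z (le_of_lt hz)
      unfold pd
      rw [hev.fderiv_eq]
      simp)
    have hcs : HasCompactSupport (fun w => et (d / 2) (w - y)) := mvp_cs y hE.2.2.1
    have hsg : ContDiff ℝ (⊤ : ℕ∞) (fun w => et (d / 2) (w - y)) :=
      hE.1.comp (contDiff_id.sub contDiff_const)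
    have hibp := mvp_ibp hsm hsg hcs m
    rw [mvp_pd_tr (et (d / 2)) y m] at hibp
    have hcs0 : HasCompactSupport (et (d / 2)) := by
      have := mvp_cs (g := et (d / 2)) 0 hE.2.2.1
      simpa using this
    have hint0 : Integrable (fun w => |pd m (et (d / 2)) w|) :=
      ((mvp_pdc hE.1 m).continuous.integrable_of_hasCompactSupport (mvp_pds hcs0 m)).abs
    have hint : Integrable (fun w => e * |pd m (et (d / 2)) (w - y)|) :=
      (hint0.comp_sub_right y).const_mul e
    have hle : |∫ w, hh d X Z x i p w * pd m (et (d / 2)) (w - y)| ≤ e * I m := by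
      calc |∫ w, hh d X Z x i p w * pd m (et (d / 2)) (w - y)|
          ≤ ∫ w, |hh d X Z x i p w * pd m (et (d / 2)) (w - y)| := abs_integral_le_integral_abs
        _ ≤ ∫ w, e * |pd m (et (d / 2)) (w - y)| := by
            apply integral_mono_of_nonneg (Eventually.of_forall fun w => abs_nonneg _) hint
            apply Eventually.of_forall
            intro w
            change |hh d X Z x i p w * pd m (et (d / 2)) (w - y)| ≤ _
            rw [abs_mul]
            rcases le_or_gt (d / 2) (nr (w - y)) with h | h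
            · rw [pd_zero (d / 2) m _ hE.1 hE.2.2.1 _ h, abs_zero, mul_zero]
              exact mul_nonneg he0 (abs_nonneg _)
            · apply mul_le_mul_of_nonneg_right _ (abs_nonneg _)
              have h1 : nr (w - X i) ≤ d := by
                have := nr_tri w y (X i)
                linarith
              rw [hh_eq_farE hPHB d hd X Z x hX i p w (by linarith)]
              exact he p w h1
        _ = e * I m := by
            rw [integral_const_mul, integral_sub_right_eq_self (fun w => |pd m (et (d / 2)) w|) y]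
    have h3 : kap * |pd m (hh d X Z x i p) y| ≤ e * I m := by
      have e1 : kap * |pd m (hh d X Z x i p) y| = |kap * pd m (hh d X Z x i p) y| := by
        rw [abs_mul, abs_of_pos hk]
      rw [e1, ← hM]
      have e2 : |∫ w, hh d X Z x i p w * pd m (et (d / 2)) (w - y)| =
          |∫ w, pd m (hh d X Z x i p) w * et (d / 2) (w - y)| := by
        rw [← abs_neg (∫ w, pd m (hh d X Z x i p) w * et (d / 2) (w - y)), ← hibp]
      rw [← e2]
      exact hle
    have h4 : e * I m ≤ e * ∑ m, I m := mul_le_mul_of_nonneg_left (hIs m) he0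
    rw [mul_div_assoc', le_div_iff₀ hk, mul_comm]
    exact h3.trans h4
  set Q := e * ((∑ m, I m) / kap) with hQ
  have hQ0 : 0 ≤ Q := by positivity
  calc |∑ m, ∑ p, v m * w p * pd m (hh d X Z x i p) y|
      ≤ ∑ m : Fin 3, ∑ p : Fin 3, K * K * Q := by
        refine (Finset.abs_sum_le_sum_abs _ _).trans (Finset.sum_le_sum fun m _ => ?_)
        refine (Finset.abs_sum_le_sum_abs _ _).trans (Finset.sum_le_sum fun p _ => ?_)
        rw [abs_mul, abs_mul]
        exact mul_le_mul (mul_le_mul (hv m) (hw p) (abs_nonneg _) hK0) (hb m p) (abs_nonneg _)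
          (mul_nonneg hK0 hK0)
    _ = 9 * (K * K * Q) := by
        simp
        ring
    _ ≤ (9 * ((∑ m, I m) / kap) + 1) * K ^ 2 * e := by
        rw [hQ]
        nlinarith [mul_nonneg (sq_nonneg K) he0]

end Pool.Agent.Helper99.HV
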